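import Pool.Agent.H18.PB.Skel
import Pool.Agent.H5.K3.Act
import Pool.Agent.H52.K2.AP6
import Pool.Agent.H80.KS6.Epl

/-!
# (SPR) for `m = 2`: the fans are not thin, with linear freedom
-/

set_option autoImplicit false

namespace Pool.PB

open Finset Real
open Pool.Agent.H49.Ent Pool.Agent.H32.Dense Pool.STK Pool.KA Pool.KSAT Pool.K2S

variable {m : ℕ}

/-- If the conditional atoms of `Y` are small on `B`, then the event that `Y` is a function of `W`
(up to a bounded number of values) is small. -/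
theorem Pe_le_atoms {Ω U : Type} [Fintype Ω] {p : Ω → ℝ} (hp : IsLaw p) {n : ℕ} (K : ℕ)
    (Y : Ω → Fin n → ℤ) (W : Ω → U) {θ : ℝ} (hθ : 0 ≤ θ) (B : Ω → Prop)
    (hB : ∀ ω, B ω → cpr p Y W ω ≤ θ)
    (hK : ∀ ω ω', B ω → B ω' → W ω = W ω' → ∀ i, |Y ω i - Y ω' i| ≤ K) :
    Pe p B ≤ (2 * K + 1) ^ n * θ := by
  classical
  obtain ⟨B', hB', hP, φ, hφ⟩ := Pool.S6K.exact_label hp K W Y B hK
  refine hP.trans (mul_le_mul_of_nonneg_left ?_ (by positivity))
  -- the event `B'`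
  have h1 : Pe p B' = ∑ w ∈ univ.image W, ∑ ω, if W ω = w then (if B' ω then p ω else 0) else 0 := by
    rw [Pe_eq, Finset.sum_comm]
    refine Finset.sum_congr rfl fun ω _ => ?_
    rw [Finset.sum_ite_eq, if_pos (Finset.mem_image_of_mem W (Finset.mem_univ ω))]
  have h2 : ∀ w ∈ univ.image W, (∑ ω, if W ω = w then (if B' ω then p ω else 0) else 0) ≤
      θ * law p W w := by
    intro w _
    by_cases h : ∃ ω₀, B' ω₀ ∧ W ω₀ = w
    · obtain ⟨ω₀, h3, h4⟩ := h
      have h5 := hB ω₀ (hB' _ h3)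
      unfold cpr at h5
      rw [h4] at h5
      have h6 : (∑ ω, if W ω = w then (if B' ω then p ω else 0) else 0) ≤
          law p (fun w => (Y w, W w)) (Y ω₀, w) := by
        unfold law
        refine Finset.sum_le_sum fun ω _ => ?_
        by_cases h7 : W ω = w
        · rw [if_pos h7]
          by_cases h8 : B' ω
          · rw [if_pos h8, if_pos]
            change (Y ω, W ω) = (Y ω₀, w)
            rw [hφ ω h8, hφ ω₀ h3, h7, h4]
          · rw [if_neg h8]
            split_ifs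
            · exact hp.nonneg ω
            · exact le_rfl
        · rw [if_neg h7]
          split_ifs
          · exact hp.nonneg ω
          · exact le_rfl
      refine h6.trans ?_
      rcases (law_nonneg hp.nonneg W w).eq_or_lt with h7 | h7
      · -- the law of `W` vanishes
        have h8 : law p (fun w => (Y w, W w)) (Y ω₀, w) ≤ law p W w := by
          unfold law
          refine Finset.sum_le_sum fun ω _ => ?_
          by_cases h9 : (Y ω, W ω) = (Y ω₀, w)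
          · rw [if_pos h9, if_pos (Prod.mk.inj h9).2]
          · rw [if_neg h9]
            split_ifs
            · exact hp.nonneg ω
            · exact le_rfl
        rw [← h7] at h8 ⊢
        rw [mul_zero]
        exact h8
      · rwa [div_le_iff₀ h7] at h5
    · have h3 : (∑ ω, if W ω = w then (if B' ω then p ω else 0) else 0) = 0 := by
        refine Finset.sum_eq_zero fun ω _ => ?_
        by_cases h7 : W ω = w
        · rw [if_pos h7, if_neg fun h8 => h ⟨ω, h8, h7⟩]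
        · rw [if_neg h7]
      rw [h3]
      exact mul_nonneg hθ (law_nonneg hp.nonneg _ _)
  have h3 : ∑ w ∈ univ.image W, law p W w = 1 := by
    unfold law
    rw [Finset.sum_comm, ← hp.sum_one]
    refine Finset.sum_congr rfl fun ω _ => ?_
    rw [Finset.sum_ite_eq, if_pos (Finset.mem_image_of_mem W (Finset.mem_univ ω))]
  calc Pe p B' = _ := h1
    _ ≤ ∑ w ∈ univ.image W, θ * law p W w := Finset.sum_le_sum h2
    _ = θ := by rw [← Finset.mul_sum, h3, mul_one]

/-- **The atoms of the fans are small on stable events** (with linear exponent). -/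
theorem atom_claim {a R : ℝ} (ha : 1 ≤ a) (hR : 0 < R) (hU : UBa m a R) {g : ℝ} (hg : 0 < g)
    (hg1 : g ≤ 1 / 2) :
    Claim (m := m) a R (fun J F A => ∀ ω, A ω →
      cpr F.p (F.D ⌊g * J⌋₊) (fun ω => (F.X J ω, F.W ω)) ω ≤
        Real.exp (-(R / (2 * a) * ⌊g * (J : ℝ)⌋₊))) := by
  classical
  have ha0 : 0 < a := by linarith
  have hρ : 0 < R / a := div_pos hR ha0
  obtain ⟨η, hη⟩ : ∃ η, η = R / a * g / 8 := ⟨_, rfl⟩
  have hη0 : 0 < η := by rw [hη]; positivity
  obtain ⟨τa, hτa, Ja, hact⟩ := Pool.K3.act_thm m a R ha hU hη0 (x₀ := 1 / 2) (by norm_num)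
  refine Claim.one ⟨2, fun J F i B => if i = 0 then
      (∀ ω, B ω → Real.exp (-(R / (2 * a) * ⌊g * (J : ℝ)⌋₊)) <
        cpr F.p (F.D ⌊g * J⌋₊) (fun ω => (F.X J ω, F.W ω)) ω)
      else (∀ ω, B ω → cpr F.p (F.D ⌊g * J⌋₊) (fun ω => (F.X J ω, F.W ω)) ω ≤
        Real.exp (-(R / (2 * a) * ⌊g * (J : ℝ)⌋₊))), ?_⟩ fun κ hκ => ?_
  · intro J F i A B hB h
    fin_cases i
    · exact fun ω hω => h ω (hB ω hω)
    · exact fun ω hω => h ω (hB ω hω)
  obtain ⟨τ, hτ⟩ : ∃ τ, τ = τa / (7 * (1 + a)) := ⟨_, rfl⟩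
  have hτ0 : 0 < τ := by
    rw [hτ]
    positivity
  obtain ⟨J₁, hJ₁⟩ := Pool.S6K.exp_small hκ (show (1 : ℝ) ≤ 2 by norm_num)
  obtain ⟨J₂, hJ₂⟩ := exists_nat_gt (4 / g)
  refine ⟨τ, hτ0, max Ja (max J₁ J₂), fun J hJ F A hS hSb => ?_⟩
  have k1 : J ≥ Ja := (le_max_left _ _).trans hJ
  have k2 : J ≥ J₁ := (le_max_left _ _).trans ((le_max_right _ _).trans hJ)
  have k3 : J ≥ J₂ := (le_max_right _ _).trans ((le_max_right _ _).trans hJ)
  have hJr : 4 / g < J := hJ₂.trans_le (by exact_mod_cast k3)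
  rw [div_lt_iff₀ hg] at hJr
  have hJ0 : (0 : ℝ) ≤ J := Nat.cast_nonneg J
  obtain ⟨q, hq⟩ : ∃ q, q = ⌊g * (J : ℝ)⌋₊ := ⟨_, rfl⟩
  have hq1 : (q : ℝ) ≤ g * J := by rw [hq]; exact Nat.floor_le (by positivity)
  have hq2 : g * J < q + 1 := by rw [hq]; exact Nat.lt_floor_add_one _
  have hqx : (q : ℝ) ≤ (1 - 1 / 2) * J := by
    have : g * J ≤ 1 / 2 * J := mul_le_mul_of_nonneg_right hg1 hJ0
    linarith
  have hqJ : q ≤ J := by
    have : (q : ℝ) ≤ J := by linarith
    exact_mod_cast this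
  have s0 := hSb 0
  have s1 := hSb 1
  simp only [if_true, Fin.isValue, one_ne_zero, if_false] at s0 s1
  rw [← hq] at s0 s1 ⊢
  obtain ⟨hlaw, -, hMx, -⟩ := hS.res ha hτ0.le
  have hn0 : ¬ ∀ ω, A ω → Real.exp (-(R / (2 * a) * q)) <
      cpr F.p (F.D q) (fun ω => (F.X J ω, F.W ω)) ω := by
    intro hA
    have e1 : (1 + a) * (6 * τ) ≤ τa := by
      rw [hτ]
      have : (1 + a) * (6 * (τa / (7 * (1 + a)))) = 6 / 7 * τa := by
        field_simp
      rw [this]
      linarith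
    have hMx' : (F.res A True hlaw).Mx a R τa := by
      refine ⟨?_, ?_⟩
      · have := hMx.1
        unfold Fam.Tm at this ⊢
        have h3 : (1 + a) * (6 * τ) * J ≤ τa * J := mul_le_mul_of_nonneg_right e1 hJ0
        linarith
      · have := hMx.2
        have h3 : (1 + a) * (6 * τ) * J ≤ τa * J := mul_le_mul_of_nonneg_right e1 hJ0
        nlinarith
    have h1 := hact J k1 (F.res A True hlaw) hMx' q hqJ hqx
    have hPA : Pe F.p A ≠ 0 := (lt_of_lt_of_le (Real.exp_pos _) hS.2.2.2).ne'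
    have h2 : CH (F.res A True hlaw).p ((F.res A True hlaw).D q)
        (fun ω => ((F.res A True hlaw).X J ω, (F.res A True hlaw).W ω)) ≤ R / (2 * a) * q := by
      refine CH_res_le F.isLaw.nonneg (F.D q) (fun ω => (F.X J ω, F.W ω)) A hPA _ ?_
      exact fun ω hω _ => (hA ω hω).le
    have h3 : R / (2 * a) = R / a / 2 := by field_simp
    rw [h3] at h2
    have h4 : R / a * q - η * J ≤ R / a / 2 * q := h1.trans h2
    have h5 : R / a / 2 * q ≤ R / a * g / 8 * J := by rw [← hη]; linarith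
    have h6 : (q : ℝ) ≤ g * J / 4 := by
      have h7 : R / a * (q / 2) ≤ R / a * (g * J / 8) := by
        calc R / a * (q / 2) = R / a / 2 * q := by ring
          _ ≤ R / a * g / 8 * J := h5
          _ = _ := by ring
      have := le_of_mul_le_mul_left h7 hρ
      linarith
    linarith
  -- the complement
  obtain ⟨B0, hB0⟩ : ∃ B0 : F.Ω → Prop, B0 = fun ω => A ω ∧ Real.exp (-(R / (2 * a) * q)) <
      cpr F.p (F.D q) (fun ω => (F.X J ω, F.W ω)) ω := ⟨_, rfl⟩
  obtain ⟨B1, hB1⟩ : ∃ B1 : F.Ω → Prop, B1 = fun ω => A ω ∧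
      cpr F.p (F.D q) (fun ω => (F.X J ω, F.W ω)) ω ≤ Real.exp (-(R / (2 * a) * q)) := ⟨_, rfl⟩
  have hsum : Pe F.p A = Pe F.p B0 + Pe F.p B1 := by
    rw [Pe_eq, Pe_eq, Pe_eq, ← Finset.sum_add_distrib]
    refine Finset.sum_congr rfl fun ω _ => ?_
    rw [hB0, hB1]
    by_cases h1 : A ω
    · by_cases h2 : cpr F.p (F.D q) (fun ω => (F.X J ω, F.W ω)) ω ≤
          Real.exp (-(R / (2 * a) * q))
      · rw [if_pos h1, if_neg, if_pos ⟨h1, h2⟩, zero_add]
        exact fun h3 => absurd h3.2 (not_lt.2 h2)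
      · rw [if_pos h1, if_pos ⟨h1, not_le.1 h2⟩, if_neg, add_zero]
        exact fun h3 => h2 h3.2
    · rw [if_neg h1, if_neg fun h3 => h1 h3.1, if_neg fun h3 => h1 h3.1, add_zero]
  have hPA0 : 0 ≤ Pe F.p A := Pe_nonneg F.isLaw A
  have hk := hJ₁ J k2
  have hP0 : Pe F.p B0 < Real.exp (-(κ * J)) * Pe F.p A := by
    by_contra hcon
    push Not at hcon
    refine hn0 (s0.of_sub (B := B0) (fun ω hω => ?_) hcon fun ω hω => ?_)
    · rw [hB0] at hω
      exact hω.1
    · rw [hB0] at hω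
      exact hω.2
  refine s1.of_sub (B := B1) (fun ω hω => ?_) ?_ fun ω hω => ?_
  · rw [hB1] at hω
    exact hω.1
  · have h1 : Real.exp (-(κ * J)) * Pe F.p A ≤ 1 / 2 * Pe F.p A :=
      mul_le_mul_of_nonneg_right hk hPA0
    linarith
  · rw [hB1] at hω
    exact hω.2

/-- **The fans are not thin, with linear freedom** (all dimensions). -/
theorem spr_zero {a R : ℝ} (ha : 1 ≤ a) (hR : 0 < R) (hU : UBa m a R) {g : ℝ} (hg : 0 < g)
    (hg1 : g ≤ 1 / 2) :
    Claim (m := m) a R (fun _ F A => Sp F 0 (R / (4 * a) * g) g A) := by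
  classical
  have ha0 : 0 < a := by linarith
  have hρ : 0 < R / a := div_pos hR ha0
  obtain ⟨τ, hτ⟩ : ∃ τ, τ = R / a * g / 16 := ⟨_, rfl⟩
  have hτ0 : 0 < τ := by rw [hτ]; positivity
  obtain ⟨J₂, hJ₂⟩ := exists_nat_gt ((R / (2 * a) + Real.log ((2 * (3 : ℕ) + 1) ^ m)) /
    (R / a * g / 8))
  have hτc : Claim (m := m) a R (fun J F A => Fam.Stt F a R τ A ∧ J₂ ≤ J) :=
    Claim.of hτ0 J₂ fun J hJ F A hS => ⟨hS, hJ⟩
  refine Claim.mono 0 ?_ ((atom_claim ha hR hU hg hg1).and hτc)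
  rintro J - F A ⟨hat, hS, hJ⟩ B hB hP ⟨ζ, hζ⟩
  have hJr : (R / (2 * a) + Real.log ((2 * (3 : ℕ) + 1) ^ m)) / (R / a * g / 8) < J :=
    hJ₂.trans_le (by exact_mod_cast hJ)
  have hp8 : 0 < R / a * g / 8 := by positivity
  rw [div_lt_iff₀ hp8] at hJr
  have hJ0 : (0 : ℝ) ≤ J := Nat.cast_nonneg J
  obtain ⟨q, hq⟩ : ∃ q, q = ⌊g * (J : ℝ)⌋₊ := ⟨_, rfl⟩
  rw [← hq] at hat hζ
  have hq2 : g * J < q + 1 := by rw [hq]; exact Nat.lt_floor_add_one _
  have hK : ∀ ω ω', B ω → B ω' → (F.X J ω, F.W ω) = (F.X J ω', F.W ω') → ∀ i,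
      |F.D q ω i - F.D q ω' i| ≤ ((3 : ℕ) : ℤ) := by
    intro ω ω' h1 h2 h3 i
    obtain ⟨c, hc⟩ := hζ ω h1
    obtain ⟨c', hc'⟩ := hζ ω' h2
    have h4 := hc i
    have h5 := hc' i
    rw [Finset.univ_eq_empty, Finset.sum_empty, sub_zero] at h4 h5
    have h6 : Fam.pt F ω = Fam.pt F ω' := h3
    rw [← h6] at h5
    have h7 : |F.d ω i - F.d ω' i| ≤ ((2 : ℕ) : ℝ) / 2 ^ q := by
      push_cast
      have e : (2 : ℝ) / 2 ^ q = 1 / 2 ^ q + 1 / 2 ^ q := by ring
      rw [e]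
      rw [abs_le] at h4 h5 ⊢
      constructor <;> linarith [h4.1, h4.2, h5.1, h5.2]
    exact Pool.S6K.floor_near (by positivity) h7
  have h1 := Pe_le_atoms F.isLaw 3 (F.D q) (fun ω => (F.X J ω, F.W ω)) (Real.exp_pos _).le B
    (fun ω hω => hat ω (hB ω hω)) hK
  have h2 : Real.exp (-(R / (4 * a) * g * J)) * Real.exp (-(τ * J)) ≤
      Real.exp (Real.log ((2 * (3 : ℕ) + 1) ^ m)) * Real.exp (-(R / (2 * a) * q)) := by
    rw [Real.exp_log (by positivity)]
    refine le_trans ?_ h1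
    exact (mul_le_mul_of_nonneg_left hS.2.2.2 (Real.exp_pos _).le).trans hP
  rw [← Real.exp_add, ← Real.exp_add, Real.exp_le_exp] at h2
  have e1 : R / (4 * a) = R / a / 4 := by field_simp
  have e2 : R / (2 * a) = R / a / 2 := by field_simp
  rw [e1, e2, hτ] at h2
  rw [e2] at hJr
  have h3 : R / a / 2 * (g * J) ≤ R / a / 2 * (q + 1) :=
    mul_le_mul_of_nonneg_left hq2.le (by positivity)
  have h4 : 0 ≤ R / a * g / 16 * J := by positivity
  have e3 : R / a / 2 * (g * J) = R / a / 4 * g * J + R / a * g / 16 * J +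
      J * (R / a * g / 8) + R / a * g / 16 * J := by ring
  have e4 : R / a / 2 * (q + 1) = R / a / 2 * q + R / a / 2 := by ring
  linarith

/-- **(SPR) for `m = 2`.** -/
theorem spr_two : SPRStmt 2 := by
  intro a R ha hR hU
  have ha0 : 0 < a := by linarith
  refine ⟨R / (4 * a), by positivity, fun g₀ hg₀ => ⟨min g₀ (1 / 2), lt_min hg₀ (by norm_num),
    min_le_left _ _, ?_⟩⟩
  exact spr_zero ha.le hR hU (lt_min hg₀ (by norm_num)) (min_le_right _ _)

end Pool.PB
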